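import Pool.Agent.J4H28.YO.Ne

set_option autoImplicit false
set_option linter.unusedSectionVars false

/-! # Project YW: non-exact forms `q f0 ^ (- n / d - m) dx` -/

namespace Pool.Agent.J4H50.YW

open Pool.Agent.J4H50.YO Pool.Agent.J4H50.TF MvPowerSeries
open Pool.Agent.J4H28.YO

/-- The differential form `q F ^ s dx_1 ∧ ⋯ ∧ dx_n` on the complement of `F = 0` is not exact: it is not a
sum of forms `∂_i (η_i F ^ (s - m)) dx_1 ∧ ⋯ ∧ dx_n` with polynomials `η_i`. -/
def NonExactQ {σ : Type} [Fintype σ] (F : MvPolynomial σ ℂ) (s : ℂ) (q : MvPolynomial σ ℂ) : Prop :=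
  ∀ (m : ℕ) (η : σ → MvPolynomial σ ℂ),
    ∑ i, (F * MvPolynomial.pderiv i (η i) +
      MvPolynomial.C (s - (m : ℂ)) * (MvPolynomial.pderiv i F * η i)) ≠ q * F ^ (m + 1)

/-- the functional -/
theorem ne_weak {σ : Type} [Fintype σ] (d m₀ : ℕ) (f0 q₀ : MvPolynomial σ ℂ)
    (R : MvPowerSeries σ ℂ) (s : ℂ) (hf : f0.IsHomogeneous d) (hf0 : f0 ≠ 0)
    (hR : OrdF (fun _ => 1) (d + 1) R) (hq : q₀.IsHomogeneous (d * m₀))
    (hne : NonExactQ f0 s q₀) :
    ∃ α, DR s ((f0 : MvPowerSeries σ ℂ) + R) α ∧ α 0 (q₀ : MvPowerSeries σ ℂ) = 1 := by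
  classical
  let E : Submodule ℂ (KK σ) := ⨆ m, LinearMap.range (ex f0 s m)
  have hmono : Monotone fun m => LinearMap.range (ex f0 s m) := by
    refine monotone_nat_of_le_succ fun m => ?_
    rintro _ ⟨η, rfl⟩
    exact ⟨_, ex_succ hf0 s m η⟩
  have h1 : algebraMap (MvPolynomial σ ℂ) (KK σ) q₀ ∉ E := by
    intro hcon
    obtain ⟨m, η, hη⟩ := (Submodule.mem_iSup_of_directed _ hmono.directed_le).1 hcon
    apply hne m η
    apply IsFractionRing.injective (MvPolynomial σ ℂ) (KK σ)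
    have h2 := alg_ne hf0
    rw [ex_apply] at hη
    have h3 := congrArg (fun x => algebraMap (MvPolynomial σ ℂ) (KK σ) f0 ^ (m + 1) * x) hη
    rw [map_mul, map_pow, mul_comm (algebraMap (MvPolynomial σ ℂ) (KK σ) q₀)]
    rw [← h3, map_sum, Finset.mul_sum]
    refine Finset.sum_congr rfl fun i _ => ?_
    rw [TT_apply, TT_apply, map_add, map_mul, map_mul, map_mul, Algebra.smul_def]
    have h4 : algebraMap ℂ (KK σ) (s - m) =
        algebraMap (MvPolynomial σ ℂ) (KK σ) (MvPolynomial.C (s - m)) :=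
      IsScalarTower.algebraMap_apply ℂ (MvPolynomial σ ℂ) (KK σ) _
    rw [h4]
    field_simp
    ring
  obtain ⟨L, l1, l2⟩ := Submodule.exists_le_ker_of_notMem h1
  have hL : ∀ m η, L (ex f0 s m η) = 0 := fun m η =>
    l2 (Submodule.mem_iSup_of_mem m ⟨η, rfl⟩)
  set w : σ → ℕ := fun _ => 1 with hw0
  have hw : ∀ i, 0 < w i := fun _ => one_pos
  have hf' : f0.IsWeightedHomogeneous w d := hf
  have hG' : ∀ x, f0.coeff x ≠ 0 → Finsupp.weight w x + 0 = d := fun x hx => hf' hx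
  have hGi : ∀ i x, (MvPolynomial.pderiv i f0).coeff x ≠ 0 → Finsupp.weight w x + w i = d := by
    intro i x hx
    rw [MvPolynomial.coeff_pderiv] at hx
    have h4 := hf' (left_ne_zero_of_mul hx)
    rw [map_add, Finsupp.weight_single, one_smul] at h4
    exact h4
  -- the level `k` carries the numerators of degree `d (k + m₀)`
  let β : ℕ → MvPowerSeries σ ℂ →ₗ[ℂ] ℂ := fun k =>
    ((L (algebraMap (MvPolynomial σ ℂ) (KK σ) q₀))⁻¹ • L.comp (TT f0 k)).comp (wc w (d * (k + m₀)))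
  have hβ : ∀ k q, β k q = (L (algebraMap (MvPolynomial σ ℂ) (KK σ) q₀))⁻¹ *
      L (TT f0 k (wc w (d * (k + m₀)) q)) := fun _ _ => rfl
  have hDR : DR s (f0 : MvPowerSeries σ ℂ) β := by
    refine ⟨?_, ?_, ?_⟩
    · intro k
      refine ⟨d * (k + m₀) + 1, fun q hq => ?_⟩
      rw [hβ]
      have h4 : wc w (d * (k + m₀)) q = 0 := by
        ext x
        rw [coeff_wc hw, MvPolynomial.coeff_zero]
        split_ifs with h5
        · apply hq
          have := degree_le_weight hw x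
          omega
        · rfl
      rw [h4, map_zero, map_zero, mul_zero]
    · intro k q
      rw [hβ, hβ, wc_mul hw f0 0 d hG' (d * (k + 1 + m₀)) (d * (k + m₀)) (by ring), TT_succ hf0]
    · intro k i q
      rw [hβ, hβ, wc_pd hw, pderiv_coe, wc_mul hw _ (w i) d (hGi i) (d * (k + 1 + m₀))
        (d * (k + m₀) + w i) (by ring)]
      have h2 := hL k (Pi.single i (wc w (d * (k + m₀) + w i) q))
      rw [ex_single, map_add, map_smul, smul_eq_mul] at h2
      linear_combination (L (algebraMap (MvPolynomial σ ℂ) (KK σ) q₀))⁻¹ * h2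
  have hz : ∀ k i, d * (k + m₀) < i → ∀ q, β (k + i) (R ^ i * q) = 0 := by
    intro k i hi q
    have h4 : OrdF w (i * (d + 1) + 0) (R ^ i * q) :=
      OrdF.one_mul' (OrdF.pow' hR i) (fun _ _ => Nat.zero_le _)
    rw [hβ, wc_ord hw h4, map_zero, map_zero, mul_zero]
    have h5 : d * (k + i + m₀) = d * (k + m₀) + d * i := by ring
    have h6 : i * (d + 1) = d * i + i := by ring
    omega
  obtain ⟨α, hα, hα0⟩ := t_PT (f0 : MvPowerSeries σ ℂ) R s β hDR
    (fun k => ⟨d * (k + m₀) + 1, fun i hi q => hz k i (by omega) q⟩)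
  refine ⟨α, hα, ?_⟩
  have hq' : OrdF w (d * m₀) (q₀ : MvPowerSeries σ ℂ) := by
    intro x hx
    rw [MvPolynomial.coeff_coe] at hx
    have h5 : q₀.IsWeightedHomogeneous w (d * m₀) := hq
    exact (h5 hx).ge
  rw [hα0 _ fun i hi => by
    have h4 : OrdF w (i * (d + 1) + d * m₀) (R ^ i * (q₀ : MvPowerSeries σ ℂ)) :=
      OrdF.one_mul' (OrdF.pow' hR i) hq'
    rw [hβ, wc_ord hw h4, map_zero, map_zero, mul_zero]
    have h5 : d * (i + m₀) = d * m₀ + d * i := by ring
    have h6 : i * (d + 1) = d * i + i := by ring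
    omega]
  have hwc : wc w (d * (0 + m₀)) (q₀ : MvPowerSeries σ ℂ) = q₀ := by
    ext x
    rw [coeff_wc hw, MvPolynomial.coeff_coe, zero_add]
    split_ifs with h5
    · rfl
    · by_contra hcon
      have h6 : q₀.IsWeightedHomogeneous w (d * m₀) := hq
      exact h5 (h6 (Ne.symm hcon))
  rw [hβ, hwc, TT_apply, pow_zero, inv_one, one_mul, inv_mul_cancel₀ l1]

end Pool.Agent.J4H50.YW
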