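import Pool.Agent.J4H45.YO.Nfe0
import Pool.Agent.J4H50.YO.Stm

set_option autoImplicit false

/-! # Project YW: functionals with any nonzero value

If `F` has all the functional equations `FEv F (s + j)`, `j` an integer, then there is no de Rham
functional at `s` but zero (`s` not an integer). -/

namespace Pool.Agent.J4H50.YW

open MvPowerSeries
open Pool.Agent.J4H50.NI Pool.Agent.J4H50.IG Pool.Agent.J4H50.TT Pool.Agent.J4H50.TF
open Pool.Agent.J4H45.YO (low_mul)
open Pool.Agent.J4H50.YO (DR)

/-- one step -/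
theorem nfeA {σ : Type} [Finite σ] (F : MvPowerSeries σ ℂ) (s : ℂ) (hs : s ≠ -1)
    (α : ℕ → MvPowerSeries σ ℂ →ₗ[ℂ] ℂ) (hα : DR s F α)
    (h0 : ∀ q, α 0 (F * q) = 0) (hev : FEv F s) (a₀ : MvPowerSeries σ ℂ) : α 0 a₀ = 0 := by
  classical
  obtain ⟨cts, sft, clo⟩ := hα
  obtain ⟨k, hk⟩ := hev
  choose N hN using cts
  -- the order
  obtain ⟨n, hn1, hn⟩ : ∃ n : ℕ, 1 ≤ n ∧ ∀ j ≤ k, N j ≤ n := by
    refine ⟨(Finset.range (k + 1)).sup N + 1, by omega, fun j hj => ?_⟩
    have : N j ≤ (Finset.range (k + 1)).sup N :=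
      Finset.le_sup (f := N) (Finset.mem_range.2 (Nat.lt_succ_of_le hj))
    omega
  have hz : ∀ j ≤ k, ∀ q : MvPowerSeries σ ℂ, (∀ x : σ →₀ ℕ, x.degree < n → coeff x q = 0) →
      α j q = 0 := fun j hj q hq => hN j q fun x hx => hq x (lt_of_lt_of_le hx (hn j hj))
  have hkn := hk n
  set G := tr (n + k + 1) F with hG
  have hG1 : ∀ x : σ →₀ ℕ, x.degree < n → coeff x ((G : MvPowerSeries σ ℂ) - F) = 0 := by
    intro x hx
    rw [map_sub, MvPolynomial.coeff_coe, coeff_tr _ (by omega), sub_self]
  have hG2 : ∀ i, ∀ x : σ →₀ ℕ, x.degree < n →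
      coeff x (((MvPolynomial.pderiv i G : MvPolynomial σ ℂ) : MvPowerSeries σ ℂ) - pderiv ℂ i F) = 0 := by
    intro i x hx
    rw [map_sub, MvPolynomial.coeff_coe, MvPowerSeries.coeff_pderiv, MvPolynomial.coeff_pderiv,
      coeff_tr, sub_self]
    rw [map_add, Finsupp.degree_single]
    omega
  -- level `-1`
  have h0' : ∀ i q, α 0 (pderiv ℂ i F * q) = 0 := by
    intro i q
    have h1 := clo 0 i (F * q)
    have e1 : pderiv ℂ i (F * q) = pderiv ℂ i F * q + F * pderiv ℂ i q := by
      rw [Derivation.leibniz, smul_eq_mul, smul_eq_mul]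
      ring
    have e2 : pderiv ℂ i F * (F * q) = F * (pderiv ℂ i F * q) := by ring
    rw [e1, e2, sft, map_add, h0, add_zero, Nat.cast_zero, sub_zero] at h1
    have h2 : (s + 1) * α 0 (pderiv ℂ i F * q) = 0 := by linear_combination h1
    rcases mul_eq_zero.1 h2 with h3 | h3
    · exact absurd (eq_neg_of_add_eq_zero_left h3) hs
    · exact h3
  -- the two rules
  have r1 : ∀ j, j + 1 ≤ k → ∀ q : MvPolynomial σ ℂ, α (j + 1) ((G * q : MvPolynomial σ ℂ) :
      MvPowerSeries σ ℂ) = α j (q : MvPowerSeries σ ℂ) := by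
    intro j hj q
    have e : ((G * q : MvPolynomial σ ℂ) : MvPowerSeries σ ℂ) =
        F * (q : MvPowerSeries σ ℂ) + ((G : MvPowerSeries σ ℂ) - F) * (q : MvPowerSeries σ ℂ) := by
      rw [MvPolynomial.coe_mul]
      ring
    rw [e, map_add, sft, hz (j + 1) hj _ (low_mul hG1), add_zero]
  have r2 : ∀ j, j + 1 ≤ k → ∀ i, ∀ q : MvPolynomial σ ℂ, α (j + 1) ((SS s G j i q :
      MvPolynomial σ ℂ) : MvPowerSeries σ ℂ) = 0 := by
    intro j hj i q
    have ep : ((MvPolynomial.pderiv i q : MvPolynomial σ ℂ) : MvPowerSeries σ ℂ) =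
        pderiv ℂ i (q : MvPowerSeries σ ℂ) := by
      ext x
      rw [MvPolynomial.coeff_coe, MvPowerSeries.coeff_pderiv, MvPolynomial.coeff_pderiv,
        MvPolynomial.coeff_coe]
    have e : ((SS s G j i q : MvPolynomial σ ℂ) : MvPowerSeries σ ℂ) =
        ((G * MvPolynomial.pderiv i q : MvPolynomial σ ℂ) : MvPowerSeries σ ℂ) +
        (s - (j : ℂ)) • (pderiv ℂ i F * (q : MvPowerSeries σ ℂ) +
          (((MvPolynomial.pderiv i G : MvPolynomial σ ℂ) : MvPowerSeries σ ℂ) - pderiv ℂ i F) *
            (q : MvPowerSeries σ ℂ)) := by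
      rw [SS, MvPolynomial.coe_add, MvPolynomial.coe_mul (MvPolynomial.C _ * _),
        MvPolynomial.coe_mul (MvPolynomial.C _), MvPolynomial.coe_C, MvPowerSeries.smul_eq_C_mul]
      ring
    rw [e, map_add, r1 j hj, map_smul, map_add, hz (j + 1) hj _ (low_mul (hG2 i)), add_zero,
      smul_eq_mul, ep]
    exact clo j i q
  have key := KI_ind s (F := G) (fun j q => j ≤ k → ∀ a : MvPolynomial σ ℂ,
    α j ((a * q : MvPolynomial σ ℂ) : MvPowerSeries σ ℂ) = 0) ?_ ?_ ?_ ?_ ?_ ?_ ?_ k
  · -- the polynomials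
    have hpol : ∀ a : MvPolynomial σ ℂ, α 0 (a : MvPowerSeries σ ℂ) = 0 := by
      intro a
      obtain ⟨u, hu, v, hv, huv⟩ := Submodule.mem_sup.1 hkn
      have h1 := key u hu le_rfl a
      have h2 : α k ((a * v : MvPolynomial σ ℂ) : MvPowerSeries σ ℂ) = 0 := by
        rw [MvPolynomial.coe_mul, mul_comm]
        apply hz k le_rfl
        apply low_mul
        intro x hx
        rw [MvPolynomial.coeff_coe]
        exact mem_iff0.1 hv x hx
      have h3 : ∀ j ≤ k, α j ((G ^ j * a : MvPolynomial σ ℂ) : MvPowerSeries σ ℂ) =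
          α 0 (a : MvPowerSeries σ ℂ) := by
        intro j
        induction j with
        | zero =>
          intro _
          rw [pow_zero, one_mul]
        | succ j ih =>
          intro hj
          rw [pow_succ', mul_assoc, r1 j hj, ih (by omega)]
      have h4 := h3 k le_rfl
      have e : G ^ k * a = a * u + a * v := by rw [← huv]; ring
      rw [e, MvPolynomial.coe_add, map_add, h1, h2, add_zero] at h4
      exact h4.symm
    have e : a₀ = (tr n a₀ : MvPowerSeries σ ℂ) + (a₀ - (tr n a₀ : MvPowerSeries σ ℂ)) := by ring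
    rw [e, map_add, hpol, zero_add]
    apply hz 0 (Nat.zero_le _)
    intro x hx
    rw [map_sub, MvPolynomial.coeff_coe, coeff_tr _ hx, sub_self]
  · intro _ a
    rw [mul_zero, MvPolynomial.coe_zero, map_zero]
  · intro _ a
    have e : ((a * G : MvPolynomial σ ℂ) : MvPowerSeries σ ℂ) =
        F * (a : MvPowerSeries σ ℂ) + ((G : MvPowerSeries σ ℂ) - F) * (a : MvPowerSeries σ ℂ) := by
      rw [MvPolynomial.coe_mul]
      ring
    rw [e, map_add, h0, hz 0 (Nat.zero_le _) _ (low_mul hG1), add_zero]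
  · intro i _ a
    have e : ((a * MvPolynomial.pderiv i G : MvPolynomial σ ℂ) : MvPowerSeries σ ℂ) =
        pderiv ℂ i F * (a : MvPowerSeries σ ℂ) +
        (((MvPolynomial.pderiv i G : MvPolynomial σ ℂ) : MvPowerSeries σ ℂ) - pderiv ℂ i F) *
          (a : MvPowerSeries σ ℂ) := by
      rw [MvPolynomial.coe_mul]
      ring
    rw [e, map_add, h0', hz 0 (Nat.zero_le _) _ (low_mul (hG2 i)), add_zero]
  · intro j x y hx hy hj a
    rw [mul_add, MvPolynomial.coe_add, map_add, hx hj, hy hj, add_zero]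
  · intro j b q hq hj a
    rw [← mul_assoc]
    exact hq hj _
  · intro j q _ hq hj a
    have e : a * (G * q) = G * (a * q) := by ring
    rw [e, r1 j hj]
    exact hq (by omega) a
  · intro j i q _ hq hj a
    have e : SS s G j i (a * q) = a * SS s G j i q + G * (MvPolynomial.pderiv i a * q) := by
      simp only [SS, Derivation.leibniz, smul_eq_mul]
      ring
    have h := r2 j hj i (a * q)
    rw [e, MvPolynomial.coe_add, map_add, r1 j hj, hq (by omega), add_zero] at h
    exact h

/-- powers of `F` have large order -/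
theorem low_pow {σ : Type} {F : MvPowerSeries σ ℂ} (hF : constantCoeff F = 0) (m : ℕ)
    (q : MvPowerSeries σ ℂ) : ∀ x : σ →₀ ℕ, x.degree < m → coeff x (F ^ m * q) = 0 := by
  classical
  induction m generalizing q with
  | zero => intro x hx; omega
  | succ m ih =>
    intro x hx
    have e : F ^ (m + 1) * q = F * (F ^ m * q) := by ring
    rw [e, coeff_mul]
    refine Finset.sum_eq_zero fun p hp => ?_
    rw [Finset.HasAntidiagonal.mem_antidiagonal] at hp
    by_cases h : p.1 = 0
    · rw [h, coeff_zero_eq_constantCoeff_apply, hF, zero_mul]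
    · have h1 : 1 ≤ p.1.degree := by
        by_contra h2
        apply h
        rw [← Finsupp.degree_eq_zero_iff]
        omega
      have h3 : x.degree = p.1.degree + p.2.degree := by rw [← hp, map_add]
      rw [ih q p.2 (by omega), mul_zero]

/-- shift up -/
theorem dr_up {σ : Type} {F : MvPowerSeries σ ℂ} {s : ℂ} {α : ℕ → MvPowerSeries σ ℂ →ₗ[ℂ] ℂ}
    (h : DR s F α) (m : ℕ) :
    DR (s + m) F (fun k => (α k).comp (LinearMap.mulLeft ℂ (F ^ m))) := by
  obtain ⟨cts, sft, clo⟩ := h
  refine ⟨fun k => ?_, fun k q => ?_, fun k i q => ?_⟩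
  · obtain ⟨N, hN⟩ := cts k
    refine ⟨N, fun q hq => ?_⟩
    change α k (F ^ m * q) = 0
    rw [mul_comm]
    exact hN _ (low_mul hq)
  · change α (k + 1) (F ^ m * (F * q)) = α k (F ^ m * q)
    rw [← sft k (F ^ m * q)]
    congr 1
    ring
  · change α k (F ^ m * pderiv ℂ i q) + (s + m - k) * α (k + 1) (F ^ m * (pderiv ℂ i F * q)) = 0
    have h1 := clo k i (F ^ m * q)
    cases m with
    | zero =>
      simp only [pow_zero, one_mul] at h1 ⊢
      rw [Nat.cast_zero, add_zero]
      exact h1
    | succ m =>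
      have e1 : pderiv ℂ i (F ^ (m + 1) * q) = F ^ (m + 1) * pderiv ℂ i q +
          ((m + 1 : ℕ) : ℂ) • (F ^ m * (pderiv ℂ i F * q)) := by
        rw [Derivation.leibniz, Derivation.leibniz_pow]
        simp only [smul_eq_mul, nsmul_eq_mul, Nat.add_sub_cancel]
        rw [Algebra.smul_def, map_natCast]
        ring
      have e2 : pderiv ℂ i F * (F ^ (m + 1) * q) = F ^ (m + 1) * (pderiv ℂ i F * q) := by ring
      have e3 : α k (F ^ m * (pderiv ℂ i F * q)) =
          α (k + 1) (F ^ (m + 1) * (pderiv ℂ i F * q)) := by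
        rw [← sft k (F ^ m * (pderiv ℂ i F * q))]
        congr 1
        ring
      rw [e1, e2, map_add, map_smul, smul_eq_mul, e3] at h1
      linear_combination h1

/-- shift down -/
theorem dr_down {σ : Type} {F : MvPowerSeries σ ℂ} {s : ℂ} {α : ℕ → MvPowerSeries σ ℂ →ₗ[ℂ] ℂ}
    (h : DR s F α) (m : ℕ) : DR (s - m) F (fun k => α (k + m)) := by
  obtain ⟨cts, sft, clo⟩ := h
  refine ⟨fun k => cts (k + m), fun k q => ?_, fun k i q => ?_⟩
  · change α (k + 1 + m) (F * q) = α (k + m) q
    have e : k + 1 + m = k + m + 1 := by ring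
    rw [e, sft]
  · change α (k + m) (pderiv ℂ i q) + (s - m - k) * α (k + 1 + m) (pderiv ℂ i F * q) = 0
    have h1 := clo (k + m) i q
    have e : k + 1 + m = k + m + 1 := by ring
    rw [e]
    push_cast at h1
    linear_combination h1

/-- no functional but zero -/
theorem nz_zero {σ : Type} [Finite σ] (F : MvPowerSeries σ ℂ) (s : ℂ) (hs : ∀ j : ℤ, s ≠ j)
    (hF : constantCoeff F = 0) (α : ℕ → MvPowerSeries σ ℂ →ₗ[ℂ] ℂ) (hα : DR s F α)
    (hev : ∀ j : ℤ, FEv F (s + j)) (k : ℕ) : ∀ q, α k q = 0 := by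
  have hup : ∀ m : ℕ, ∀ q, α 0 (F ^ m * q) = 0 := by
    obtain ⟨N, hN⟩ := hα.cts 0
    have hstep : ∀ i : ℕ, ∀ m : ℕ, N ≤ m + i → ∀ q, α 0 (F ^ m * q) = 0 := by
      intro i
      induction i with
      | zero =>
        intro m hm q
        exact hN _ fun x hx => low_pow hF m q x (by omega)
      | succ i ih =>
        intro m hm q
        have h1 := ih (m + 1) (by omega)
        have h2 := nfeA F (s + m) (by
          intro h
          apply hs (-1 - m)
          push_cast
          linear_combination h) _ (dr_up hα m) (fun q => by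
            change α 0 (F ^ m * (F * q)) = 0
            have e : F ^ m * (F * q) = F ^ (m + 1) * q := by ring
            rw [e, h1]) (by
              have := hev (m : ℤ)
              push_cast at this
              exact this) q
        exact h2
    intro m
    exact hstep N m (by omega)
  induction k with
  | zero =>
    intro q
    have := hup 0 q
    rwa [pow_zero, one_mul] at this
  | succ k ih =>
    intro q
    have h2 := nfeA F (s - (k + 1 : ℕ)) (by
      intro h
      apply hs (k : ℤ)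
      push_cast at h ⊢
      linear_combination h) _ (dr_down hα (k + 1)) (fun q => by
        change α (0 + (k + 1)) (F * q) = 0
        rw [zero_add, hα.sft, ih]) (by
          have := hev (-((k : ℤ) + 1))
          push_cast at this ⊢
          rw [sub_eq_add_neg]
          exact this) q
    change α (0 + (k + 1)) q = 0 at h2
    rwa [zero_add] at h2

end Pool.Agent.J4H50.YW
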