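import Pool.Agent.J4H50.YL.Asm
import Pool.Agent.J4H50.YW.Nfe
import Pool.Agent.J4H50.YW.Ne

set_option autoImplicit false

/-! # Project YW: the number `- n / d` up to integers -/

namespace Pool.Agent.J4H50.YW

open MvPolynomial
open Pool.Agent.W428.MOT
open Pool.Agent.TH192.MT (zetaO)
open Pool.Agent.J4H50.YJ
open Pool.Agent.J4H50.YK
open Pool.Agent.J4H50.YL
open Pool.Agent.J4H50.YP (rest_ord)
open Pool.Agent.J4H50.TF (FEv_of_formal formal_root)
open Pool.Agent.Y229.PS (IsFormalBFunction formal_of_local)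
open Pool.Agent.H628R4.TP (IsLocalBFunction)

/-- The weak condition for the number `- n / d`, `n` the number of variables: for some `m` and some form
`q` of degree `m d` the differential form `q G_d ^ (- n / d - m) dx` is not exact on the complement of the
cone `G_d = 0`. -/
def WeakStar (V : Type) [Fintype V] [DecidableEq V] (d : ℕ) (G : MvPolynomial V ℂ) : Prop :=
  ∃ (m : ℕ) (q : MvPolynomial V ℂ), q.IsHomogeneous (d * m) ∧
    NonExactQ (homogeneousComponent d G) (-((Fintype.card V : ℕ) : ℂ) / d - m) q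

theorem weak_root {n : ℕ} (d : ℕ) (f : MvPolynomial (Fin n) ℂ) (hd : 2 ≤ d)
    (hG1 : ∀ j < d, homogeneousComponent j f = 0) (hG0 : homogeneousComponent d f ≠ 0)
    (h : WeakStar (Fin n) d f) :
    ∃ j : ℤ, ∀ b : Polynomial ℂ, IsLocalBFunction f b → b.eval (-(n : ℂ) / d + j) = 0 := by
  obtain ⟨hf0, hfc⟩ := cone_basic f d hd hG1 hG0
  obtain ⟨b₀, hb₀, hdvd⟩ := exists_gen (f : MvPowerSeries (Fin n) ℂ)
  have hm1 := formal_root hf0 hfc hb₀
  suffices hs : ∃ j : ℤ, b₀.eval (-(n : ℂ) / d + j) = 0 by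
    obtain ⟨j, hj⟩ := hs
    refine ⟨j, fun b hb => ?_⟩
    obtain ⟨c, rfl⟩ := hdvd b (formal_of_local hb)
    rw [Polynomial.eval_mul, hj, zero_mul]
  by_contra hcon
  push Not at hcon
  obtain ⟨m, q, hq, hne⟩ := h
  rw [Fintype.card_fin] at hne
  obtain ⟨α, hα, hα1⟩ := ne_weak d m (homogeneousComponent d f) q _ _
    (homogeneousComponent_isHomogeneous d f) hG0 (rest_ord f d hG1) hq hne
  rw [coe_split] at hα
  have h0 := nz_zero (f : MvPowerSeries (Fin n) ℂ) (-(n : ℂ) / d - m) ?_ hfc α hα ?_ 0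
    (q : MvPowerSeries (Fin n) ℂ)
  · rw [hα1] at h0
    exact one_ne_zero h0
  · intro j hj
    apply hcon (-1 - j - m)
    have e : -(n : ℂ) / d + ((-1 - j - m : ℤ) : ℂ) = -1 := by
      push_cast
      linear_combination hj
    rw [e]
    exact hm1
  · intro j
    refine FEv_of_formal hf0 hb₀ ?_
    have e : -(n : ℂ) / d - m + j = -(n : ℂ) / d + ((j - m : ℤ) : ℂ) := by
      push_cast
      ring
    rw [e]
    exact hcon _

/-- **The local motivic zeta function of a superisolated singularity.** -/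
theorem main_sqw {n : ℕ} (d : ℕ) (f : MvPolynomial (Fin n) ℂ) (hf : SQ (Fin n) d f) :
    (∃ S : Finset (ℤ × ℤ), (∀ q ∈ S, q.1 < 0 ∧ 0 < q.2 ∧
      ((q.1 : ℂ) / q.2 = -(n : ℂ) / d ∨
        ∀ b : Polynomial ℂ, IsLocalBFunction f b → b.eval ((q.1 : ℂ) / q.2) = 0)) ∧
      zetaO f ∈ ratRing ℂ (S : Set (ℤ × ℤ))) ∧
    (Star (Fin n) d f → ∀ b : Polynomial ℂ, IsLocalBFunction f b →
      b.eval (-(n : ℂ) / d) = 0) ∧
    (WeakStar (Fin n) d f → ∃ j : ℤ, ∀ b : Polynomial ℂ, IsLocalBFunction f b →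
      b.eval (-(n : ℂ) / d + j) = 0) :=
  ⟨(main_sq d f hf).1, (main_sq d f hf).2, fun h => weak_root d f hf.1 hf.2.1 hf.2.2.1 h⟩

end Pool.Agent.J4H50.YW
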